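import Pool.Agent.KZP.AHalf
import Pool.Agent.KZP.Main
import Pool.Agent.KZP.NC

/-!
# The stratum `M_4(7,1,1,1,1,1)^odd` is not aspherical

`XS` is the space of the smooth curves `C_s` with five distinct labelled points. The first four parts
of the theorem say that `XS` with its action of `ℂˣ` is the moduli space; the last part says that a
homotopy group `π_k(XS, x)`, `3 ≤ k ≤ 18`, is nontrivial, and that the orbifold universal cover of
the component of `x` is not contractible.
-/

set_option autoImplicit false

open KZP KaehlerDifferential

namespace Pool.Agent.Results.MP_55ff1c_gt.NotAspherical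

theorem result :
    -- the objects over `ℂ`: their groupoid is the action groupoid of `ℂˣ` on `XS`
    ObjModuli ∧
    -- the 1-form: no zeros on `C ∖ P`, a zero of order exactly `6` at `P`
    (∀ A : Obj, ∃ ω, A.IsForm ω) ∧
    -- `XS` with its topology is the fine moduli space of the continuous families with a tangent
    -- vector at `P`, and the fibres of the families are the objects
    (∀ (T : Type) [TopologicalSpace T], FamModuli T) ∧
    -- a nontrivial homotopy group, and the universal cover
    ∃ x : XS, (∃ k : ℕ, 3 ≤ k ∧ k ≤ 18 ∧ Nontrivial (HomotopyGroup (Fin k) XS x)) ∧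
      ∀ (Y : Type) [TopologicalSpace Y] [ContractibleSpace Y] (p : Y × ℂˣ → XS),
        IsCoveringMap p → x ∉ Set.range p := by
  obtain ⟨k, hk3, hk18, x, hx⟩ := main
  exact ⟨obj_moduli, exists_obj_form, fun T _ => fam_moduli T, x, ⟨k, hk3, hk18, hx⟩,
    fun Y _ _ p hp => no_cover x k (by omega) hx p hp⟩

end Pool.Agent.Results.MP_55ff1c_gt.NotAspherical
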